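import Pool.Agent.helper45.SGC.Spec

/-! Row sy:UNB (MP_069684_lc): union bound over all sets `T`. -/

set_option autoImplicit false

namespace Pool.Agent.SGC

open Finset Pool.Agent.helper38.Neg Pool.Agent.helper55.NT

theorem UNB_card (h : ℕ) : Fintype.card (Fin 3 → (Fin h × Fin 2 ≃ Fin (2 * h))) = (2 * h).factorial ^ 3 := by
  have e : Fin h × Fin 2 ≃ Fin (2 * h) := finProdFinEquiv.trans (finCongr (Nat.mul_comm h 2))
  rw [Fintype.card_fun, Fintype.card_equiv e, Fintype.card_prod, Fintype.card_fin, Fintype.card_fin,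
    Fintype.card_fin, Nat.mul_comm h 2]

theorem UNB_one (κ C n F : ℝ) (hC : 0 < C) (hn : 0 ≤ n) (hF : 0 ≤ F)
    (h : κ ^ 2 * C ≤ n * F ^ 2) : κ * √C ≤ √n * F := by
  refine abs_le_of_sq_le_sq' ?_ (by positivity) |>.2
  rw [mul_pow, mul_pow, Real.sq_sqrt hC.le, Real.sq_sqrt hn]
  exact h

theorem UNB_sum (N : ℕ) : ∑ T : Finset (Fin N), (1 : ℝ) / (N.choose T.card) = N + 1 := by
  have h1 := Finset.sum_powerset_apply_card (x := (univ : Finset (Fin N))) (fun m => (1 : ℝ) / (N.choose m))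
  rw [Finset.powerset_univ, Finset.card_univ, Fintype.card_fin] at h1
  rw [h1]
  have h2 : ∀ m ∈ range (N + 1), N.choose m • ((1 : ℝ) / (N.choose m)) = 1 := by
    intro m hm
    have h3 : 0 < N.choose m := Nat.choose_pos (by
      rw [mem_range] at hm
      omega)
    have h4 : ((N.choose m : ℕ) : ℝ) ≠ 0 := Nat.cast_ne_zero.2 h3.ne'
    rw [nsmul_eq_mul, mul_one_div_cancel h4]
  rw [sum_congr rfl h2, sum_const, card_range, nsmul_eq_mul, mul_one]
  push_cast
  ring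

theorem UNB (hCNT : CNT_stmt) (hBIC : BIC_stmt) : UNB_stmt := by
  classical
  intro h c B L hL hD
  by_contra hcon
  push Not at hcon
  set TT : Finset (Finset (Fin (2 * h))) := univ.filter fun T => c < T.card ∧ T.card + c < 2 * h with hTT
  have hcard : Fintype.card (Fin 3 → (Fin h × Fin 2 ≃ Fin (2 * h))) ≤
      ∑ T ∈ TT, ∑ S ∈ L, ∏ j : Fin 3,
        (univ.filter fun σ : Fin h × Fin 2 ≃ Fin (2 * h) => pat σ T = S j).card := by
    have hsub : (univ : Finset (Fin 3 → (Fin h × Fin 2 ≃ Fin (2 * h)))) ⊆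
        TT.biUnion fun T => L.biUnion fun S => Fintype.piFinset fun j =>
          univ.filter fun σ : Fin h × Fin 2 ≃ Fin (2 * h) => pat σ T = S j := by
      intro σ _
      obtain ⟨T, hT1, hT2, hT3⟩ := hcon σ
      rw [mem_biUnion]
      refine ⟨T, by rw [hTT, mem_filter]; exact ⟨mem_univ _, hT1, hT2⟩, ?_⟩
      rw [mem_biUnion]
      refine ⟨_, hT3, ?_⟩
      rw [Fintype.mem_piFinset]
      intro j
      rw [mem_filter]
      exact ⟨mem_univ _, rfl⟩
    calc Fintype.card (Fin 3 → (Fin h × Fin 2 ≃ Fin (2 * h)))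
        = (univ : Finset (Fin 3 → (Fin h × Fin 2 ≃ Fin (2 * h)))).card := Finset.card_univ.symm
      _ ≤ _ := card_le_card hsub
      _ ≤ ∑ T ∈ TT, (L.biUnion fun S => Fintype.piFinset fun j =>
          univ.filter fun σ : Fin h × Fin 2 ≃ Fin (2 * h) => pat σ T = S j).card := card_biUnion_le
      _ ≤ ∑ T ∈ TT, ∑ S ∈ L, (Fintype.piFinset fun j =>
          univ.filter fun σ : Fin h × Fin 2 ≃ Fin (2 * h) => pat σ T = S j).card :=
          sum_le_sum fun T _ => card_biUnion_le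
      _ = _ := by simp only [Fintype.card_piFinset]
  rw [UNB_card] at hcard
  set F : ℝ := ((2 * h).factorial : ℝ) with hF
  have hF0 : 0 < F := by
    rw [hF]
    exact_mod_cast Nat.factorial_pos _
  set n : ℝ := ((2 * h + 1 : ℕ) : ℝ) with hn
  have hn0 : 0 < n := by
    rw [hn]
    exact_mod_cast Nat.succ_pos _
  set D : ℝ := ((2 * h).choose c : ℝ) with hDdef
  have hDr : (B : ℝ) ^ 2 * n ^ 5 < D := by
    rw [hn, hDdef]
    exact_mod_cast hD
  have hD0 : 0 < D := lt_of_le_of_lt (by positivity) hDr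
  have hterm : ∀ T ∈ TT, ∀ S : Fin 3 → Finset (Fin h),
      (∏ j : Fin 3, (((univ.filter fun σ : Fin h × Fin 2 ≃ Fin (2 * h) => pat σ T = S j).card : ℕ) : ℝ)) ≤
        (√n * F) ^ 3 / √D * (1 / ((2 * h).choose T.card : ℝ)) := by
    intro T hT S
    rw [hTT, mem_filter] at hT
    have hchD : D ≤ ((2 * h).choose T.card : ℝ) := by
      rw [hDdef]
      exact_mod_cast hBIC.1 (2 * h) c T.card hT.2.1.le hT.2.2.le
    set C : ℝ := ((2 * h).choose T.card : ℝ) with hC
    have hC0 : 0 < C := lt_of_lt_of_le hD0 hchD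
    have h1 : ∀ j : Fin 3, (((univ.filter fun σ : Fin h × Fin 2 ≃ Fin (2 * h) =>
        pat σ T = S j).card : ℕ) : ℝ) * √C ≤ √n * F := by
      intro j
      refine UNB_one _ C n F hC0 hn0.le hF0.le ?_
      rw [hC, hn, hF]
      exact_mod_cast hCNT h T (S j)
    have h2 : (∏ j : Fin 3, ((((univ.filter fun σ : Fin h × Fin 2 ≃ Fin (2 * h) =>
        pat σ T = S j).card : ℕ) : ℝ) * √C)) ≤ ∏ _j : Fin 3, (√n * F) :=
      Finset.prod_le_prod (fun j _ => by positivity) fun j _ => h1 j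
    rw [Finset.prod_mul_distrib, Finset.prod_const, Finset.prod_const, Finset.card_univ,
      Fintype.card_fin] at h2
    have h3 : √D ≤ √C := Real.sqrt_le_sqrt hchD
    have h4 : 0 < √D := Real.sqrt_pos.2 hD0
    have h5 : √C ^ 3 = C * √C := by
      calc √C ^ 3 = √C ^ 2 * √C := by ring
        _ = C * √C := by rw [Real.sq_sqrt hC0.le]
    rw [h5] at h2
    rw [div_mul_div_comm, mul_one, le_div_iff₀ (by positivity)]
    refine le_trans ?_ h2
    refine mul_le_mul_of_nonneg_left ?_ (Finset.prod_nonneg fun j _ => Nat.cast_nonneg _)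
    rw [mul_comm]
    exact mul_le_mul_of_nonneg_left h3 hC0.le
  have hreal : F ^ 3 ≤ (B : ℝ) * ((√n * F) ^ 3 / √D) * n := by
    have h1 : F ^ 3 ≤ ∑ T ∈ TT, ∑ S ∈ L, ∏ j : Fin 3,
        (((univ.filter fun σ : Fin h × Fin 2 ≃ Fin (2 * h) => pat σ T = S j).card : ℕ) : ℝ) := by
      rw [hF]
      exact_mod_cast hcard
    have h2 : ∀ T ∈ TT, ∑ S ∈ L, ∏ j : Fin 3,
        (((univ.filter fun σ : Fin h × Fin 2 ≃ Fin (2 * h) => pat σ T = S j).card : ℕ) : ℝ) ≤
        (B : ℝ) * ((√n * F) ^ 3 / √D * (1 / ((2 * h).choose T.card : ℝ))) := by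
      intro T hT
      refine (sum_le_sum fun S _ => hterm T hT S).trans ?_
      rw [sum_const, nsmul_eq_mul]
      refine mul_le_mul_of_nonneg_right ?_ (by positivity)
      exact_mod_cast hL
    have h3 : ∑ T ∈ TT, (B : ℝ) * ((√n * F) ^ 3 / √D * (1 / ((2 * h).choose T.card : ℝ))) ≤
        ∑ T : Finset (Fin (2 * h)), (B : ℝ) * ((√n * F) ^ 3 / √D * (1 / ((2 * h).choose T.card : ℝ))) :=
      sum_le_sum_of_subset_of_nonneg (subset_univ _) fun T _ _ => by positivity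
    have h4 : ∑ T : Finset (Fin (2 * h)), (B : ℝ) * ((√n * F) ^ 3 / √D * (1 / ((2 * h).choose T.card : ℝ))) =
        (B : ℝ) * ((√n * F) ^ 3 / √D) * n := by
      have h5 := UNB_sum (2 * h)
      have h6 : ∑ T : Finset (Fin (2 * h)), (B : ℝ) * ((√n * F) ^ 3 / √D * (1 / ((2 * h).choose T.card : ℝ))) =
          (B : ℝ) * ((√n * F) ^ 3 / √D) * ∑ T : Finset (Fin (2 * h)), (1 : ℝ) / ((2 * h).choose T.card) := by
        rw [mul_sum]
        exact sum_congr rfl fun T _ => by ring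
      rw [h6, h5, hn]
      push_cast
      ring
    exact h1.trans ((sum_le_sum h2).trans (h3.trans h4.le))
  have h4 : 0 < √D := Real.sqrt_pos.2 hD0
  have h7 : √n ^ 3 * n = √n ^ 5 := by
    have : n = √n ^ 2 := (Real.sq_sqrt hn0.le).symm
    nth_rewrite 2 [this]
    ring
  have h8 : √D ≤ (B : ℝ) * √n ^ 5 := by
    have h9 : F ^ 3 * √D ≤ F ^ 3 * ((B : ℝ) * √n ^ 5) := by
      calc F ^ 3 * √D ≤ (B : ℝ) * ((√n * F) ^ 3 / √D) * n * √D :=
            mul_le_mul_of_nonneg_right hreal h4.le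
        _ = F ^ 3 * ((B : ℝ) * (√n ^ 3 * n)) := by
            field_simp
        _ = F ^ 3 * ((B : ℝ) * √n ^ 5) := by rw [h7]
    exact le_of_mul_le_mul_left h9 (by positivity)
  have h10 : D ≤ (B : ℝ) ^ 2 * n ^ 5 := by
    have h11 := pow_le_pow_left₀ h4.le h8 2
    rw [Real.sq_sqrt hD0.le] at h11
    have h12 : ((B : ℝ) * √n ^ 5) ^ 2 = (B : ℝ) ^ 2 * n ^ 5 := by
      calc ((B : ℝ) * √n ^ 5) ^ 2 = (B : ℝ) ^ 2 * (√n ^ 2) ^ 5 := by ring
        _ = (B : ℝ) ^ 2 * n ^ 5 := by rw [Real.sq_sqrt hn0.le]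
    rw [h12] at h11
    exact h11
  linarith

end Pool.Agent.SGC
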